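import Pool.Agent.H629.GC.Stm

set_option autoImplicit false

open MeasureTheory ProbabilityTheory Set Filter
open scoped ENNReal Topology

namespace Pool.Agent.H629.GC.B2

theorem t_B2 (hA : S_B2a) (hB : S_B2b) : S_B2 := by
  intro Ω T i1 i2 P X o δ ε C₀ hyp Q hQ
  obtain ⟨hmono, hzero, hstep, hfar, hclose⟩ := hA Ω T i1 i2 P X o δ ε C₀ hyp
  have hmp := hB Ω T i1 i2 P X o δ ε C₀ hyp
  refine ⟨hyp.toBase, hmono, hzero, hstep, hyp.div, ?_, ?_, ?_⟩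
  · intro c hc
    obtain ⟨C, hC⟩ := hfar c hc
    exact ⟨C, fun m n x y hmn hx hy h => hC m n x y hmn (hQ x hx y hy) h⟩
  · intro R
    obtain ⟨C, hC⟩ := hclose R
    exact ⟨C, fun m n x y hmn hx hy h => hC m n x y hmn (hQ x hx y hy) h⟩
  · intro N Λ
    obtain ⟨C, hC⟩ := hmp N Λ
    exact ⟨C, fun L m n hL hmn => hC L m n ⟨hL.len, hL.wt, fun a _ => mem_univ _⟩ hmn⟩

end Pool.Agent.H629.GC.B2
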