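import Mathlib

set_option autoImplicit false

open MeasureTheory ProbabilityTheory Set Filter
open scoped ENNReal Topology

/-!
# Moments of non-Gaussian multiplicative chaos (MP_b1920d_pr): definitions

`X j x ω` is the value at the point `x` of the `j`-th field.  `S X m n x ω` is the sum over
`m ≤ j < n`.  All constants have the form `exp C`.
-/

namespace Pool.Agent.H629.GC

noncomputable section

variable {Ω T : Type} [MeasurableSpace Ω]

/-- the sum of the fields with numbers in `[m, n)` -/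
def S (X : ℕ → T → Ω → ℝ) (m n : ℕ) (x : T) (ω : Ω) : ℝ := ∑ j ∈ Finset.Ico m n, X j x ω

/-- a linear combination of values of `S` -/
def ev (X : ℕ → T → Ω → ℝ) (L : List (ℝ × T)) (m n : ℕ) (ω : Ω) : ℝ :=
  (L.map fun a => a.1 * S X m n a.2 ω).sum

/-- the exponential weight of the list `L` -/
def W (X : ℕ → T → Ω → ℝ) (L : List (ℝ × T)) (m n : ℕ) (ω : Ω) : ℝ≥0∞ :=
  ENNReal.ofReal (Real.exp (ev X L m n ω))

/-- its expectation -/
def Ph (P : Measure Ω) (X : ℕ → T → Ω → ℝ) (L : List (ℝ × T)) (m n : ℕ) : ℝ≥0∞ :=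
  ∫⁻ ω, W X L m n ω ∂P

/-- the normalised density `exp (β S) / E exp (β S)` -/
def gh (P : Measure Ω) (X : ℕ → T → Ω → ℝ) (β : ℝ) (m n : ℕ) (x : T) (ω : Ω) : ℝ≥0∞ :=
  W X [(β, x)] m n ω / Ph P X [(β, x)] m n

/-- the chaos measure of `A` built from the fields with numbers in `[m, n)` -/
def Z [MeasurableSpace T] (P : Measure Ω) (X : ℕ → T → Ω → ℝ) (β : ℝ) (vol : Measure T) (m n : ℕ)
    (A : Set T) (ω : Ω) : ℝ≥0∞ :=
  ∫⁻ y in A, gh P X β m n y ω ∂vol

/-- the covariance of `S X m n` (for centred fields) -/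
def K (P : Measure Ω) (X : ℕ → T → Ω → ℝ) (m n : ℕ) (x y : T) : ℝ :=
  ∑ j ∈ Finset.Ico m n, ∫ ω, X j x ω * X j y ω ∂P

/-- the quadratic form of the covariance, evaluated at the list `L` -/
def QQ (P : Measure Ω) (X : ℕ → T → Ω → ℝ) (L : List (ℝ × T)) (m n : ℕ) : ℝ :=
  (L.map fun a => (L.map fun b => a.1 * b.1 * K P X m n a.2 b.2).sum).sum

/-- the sub-σ-algebra of the fields with numbers in `[m, n)` -/
@[reducible] def Sg (X : ℕ → T → Ω → ℝ) (m n : ℕ) : MeasurableSpace Ω :=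
  ⨆ j ∈ Set.Ico m n, MeasurableSpace.comap (fun (ω : Ω) (x : T) => X j x ω) MeasurableSpace.pi

/-- `exp C` as an extended nonnegative real -/
def ex (C : ℝ) : ℝ≥0∞ := ENNReal.ofReal (Real.exp C)

/-- Continuous independent fields. -/
structure Base [TopologicalSpace T] (P : Measure Ω) (X : ℕ → T → Ω → ℝ) : Prop where
  prob : IsProbabilityMeasure P
  cont : ∀ j ω, Continuous fun x => X j x ω
  meas : ∀ j x, Measurable (X j x)
  indep : iIndepFun (fun (j : ℕ) (ω : Ω) (x : T) => X j x ω) P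

/-- The points of the list lie in `Q`, the weights are bounded by `Λ`, the length is at most `N`. -/
structure Adm (Q : Set T) (N : ℕ) (Λ : ℝ) (L : List (ℝ × T)) : Prop where
  len : L.length ≤ N
  wt : ∀ a ∈ L, |a.1| ≤ Λ
  pt : ∀ a ∈ L, a.2 ∈ Q

/-- Log-correlated fields on `Q`: `s n` is the variance of the first `n` fields. -/
structure Chaos [MetricSpace T] (P : Measure Ω) (X : ℕ → T → Ω → ℝ) (Q : Set T) (s : ℕ → ℝ) :
    Prop extends Base P X where
  mono : Monotone s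
  zero : s 0 = 0
  step : ∃ D : ℝ, ∀ k, s (k + 1) ≤ s k + D
  top : Tendsto s atTop atTop
  far : ∀ c : ℝ, 0 < c → ∃ C : ℝ, ∀ (m n : ℕ) (x y : T), m ≤ n → x ∈ Q → y ∈ Q →
    c * Real.exp (-(s m)) ≤ dist x y → |K P X m n x y| ≤ C
  close : ∀ R : ℝ, ∃ C : ℝ, ∀ (m n : ℕ) (x y : T), m ≤ n → x ∈ Q → y ∈ Q →
    dist x y ≤ R * Real.exp (-(s n)) → |K P X m n x y - (s n - s m)| ≤ C
  mp : ∀ (N : ℕ) (Λ : ℝ), ∃ C : ℝ, ∀ (L : List (ℝ × T)) (m n : ℕ), Adm Q N Λ L → m ≤ n →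
    ex (QQ P X L m n / 2 - C) ≤ Ph P X L m n ∧ Ph P X L m n ≤ ex (QQ P X L m n / 2 + C)

/-- `vol` is upper regular of dimension `d`. -/
def Reg [MetricSpace T] [MeasurableSpace T] (vol : Measure T) (d : ℝ) : Prop :=
  ∃ C : ℝ, ∀ (z : T) (t : ℝ), vol (Metric.closedBall z (Real.exp t)) ≤ ex (C + d * t)

/-- All points of the list have distance at least `c e^{-s m}` from `A`. -/
def Far [MetricSpace T] (c t : ℝ) (L : List (ℝ × T)) (A : Set T) : Prop :=
  ∀ a ∈ L, ∀ y ∈ A, c * Real.exp (-t) ≤ dist a.2 y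

/-- **The moment bound of order `q`**, uniform in the scale and with a tilt. -/
def Claim [MetricSpace T] [MeasurableSpace T] (P : Measure Ω) (X : ℕ → T → Ω → ℝ) (Q : Set T)
    (s : ℕ → ℝ) (vol : Measure T) (β d q : ℝ) : Prop :=
  ∀ (N : ℕ) (Λ c : ℝ), 0 < c → ∃ C : ℝ, ∀ (L : List (ℝ × T)) (m n : ℕ) (A : Set T) (z : T),
    m ≤ n → Adm Q N Λ L → MeasurableSet A → A ⊆ Q →
    A ⊆ Metric.closedBall z (Real.exp (-(s m))) → (m = n ∨ Far c (s m) L A) →
    ∫⁻ ω, W X L m n ω * Z P X β vol m n A ω ^ q ∂P ≤ ex (C - d * q * s m) * Ph P X L m n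

/-- **The bound for one piece**: `B` is a part of the ball of radius `e^{-s k}` around `x` far from
`x` (if `k ≠ n`), and there is an additional weight `gh m k x ^ u`. -/
def Piece [MetricSpace T] [MeasurableSpace T] (P : Measure Ω) (X : ℕ → T → Ω → ℝ) (Q : Set T)
    (s : ℕ → ℝ) (vol : Measure T) (β d r u : ℝ) : Prop :=
  ∀ (N : ℕ) (Λ c R : ℝ), 0 < c → ∃ C : ℝ, ∀ (L : List (ℝ × T)) (m k n : ℕ) (B : Set T) (x z : T),
    m ≤ k → k ≤ n → Adm Q N Λ L → MeasurableSet B → B ⊆ Q → x ∈ Q →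
    B ⊆ Metric.closedBall z (Real.exp (-(s k))) →
    (∀ y ∈ B, dist x y ≤ R * Real.exp (-(s k))) →
    (k = n ∨ ∀ y ∈ B, c * Real.exp (-(s k)) ≤ dist x y) →
    Far c (s m) L B → Far c (s m) L {x} →
    ∫⁻ ω, W X L m n ω * gh P X β m n x ω * gh P X β m k x ω ^ u * Z P X β vol m n B ω ^ r ∂P ≤
      ex (C + β ^ 2 / 2 * ((1 + u + r) ^ 2 - (1 + u + r)) * (s k - s m) - d * r * s k) *
        Ph P X L m n

end

end Pool.Agent.H629.GC
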