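import Pool.Agent.H629.GC.Stm2
import Pool.Agent.H629.GC.B2

set_option autoImplicit false

open MeasureTheory ProbabilityTheory Set Filter
open scoped ENNReal Topology

namespace Pool.Agent.H629.GC.Fin

/-- all moment bounds -/
def S_CL : Prop := Ass fun _Ω _T _ _ _ P X Q s vol β d =>
  ∀ r : ℝ, 0 ≤ r → β ^ 2 / 2 * r < d → Claim P X Q s vol β d r

theorem ex_ne_top (C : ℝ) : ex C ≠ ∞ := ENNReal.ofReal_ne_top

theorem W_nil {Ω T : Type} [MeasurableSpace Ω] (X : ℕ → T → Ω → ℝ) (m n : ℕ) (ω : Ω) :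
    W X [] m n ω = 1 := by
  simp [W, ev]

theorem Ph_nil {Ω T : Type} [MeasurableSpace Ω] (P : Measure Ω) [IsProbabilityMeasure P]
    (X : ℕ → T → Ω → ℝ) (m n : ℕ) : Ph P X [] m n = 1 := by
  simp [Ph, W_nil]

theorem sum_rpow_le {p : ℝ} (hp : 0 < p) (N : ℕ) (a : ℕ → ℝ≥0∞) :
    (∑ i ∈ Finset.range N, a i) ^ p ≤ (N : ℝ≥0∞) ^ p * ∑ i ∈ Finset.range N, a i ^ p := by
  rcases Nat.eq_zero_or_pos N with rfl | hN
  · simp [ENNReal.zero_rpow_of_pos hp]
  · obtain ⟨j, hj, hmax⟩ := Finset.exists_max_image (Finset.range N) a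
      ⟨0, Finset.mem_range.2 hN⟩
    calc (∑ i ∈ Finset.range N, a i) ^ p ≤ (∑ i ∈ Finset.range N, a j) ^ p :=
          ENNReal.rpow_le_rpow (Finset.sum_le_sum hmax) hp.le
      _ = (N : ℝ≥0∞) ^ p * a j ^ p := by
          rw [Finset.sum_const, Finset.card_range, nsmul_eq_mul,
            ENNReal.mul_rpow_of_nonneg _ _ hp.le]
      _ ≤ _ := by
          gcongr
          exact Finset.single_le_sum (f := fun i => a i ^ p) (fun i _ => zero_le) hj

theorem lintegral_range_union_le {T : Type} [MeasurableSpace T] (vol : Measure T)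
    (Q : ℕ → Set T) (f : T → ℝ≥0∞) (N : ℕ) :
    ∫⁻ y in (⋃ i ∈ Finset.range N, Q i), f y ∂vol ≤
      ∑ i ∈ Finset.range N, ∫⁻ y in Q i, f y ∂vol := by
  induction N with
  | zero => simp
  | succ N ih =>
    rw [Finset.range_add_one, Finset.set_biUnion_insert, Finset.sum_insert Finset.notMem_range_self]
    exact (lintegral_union_le f _ _).trans (by gcongr)

section

variable {Ω : Type} [MeasurableSpace Ω] {P : Measure Ω} {d : ℕ} {X : ℕ → Cube d → Ω → ℝ}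
  {o : Cube d} {δ ε C₀ : ℝ} {β : ℝ}

theorem measZ (hC2 : S_C2) (hyp : Base P X) (vol : Measure (Cube d)) [SFinite vol] (m n : ℕ)
    {B : Set (Cube d)} (hB : MeasurableSet B) : Measurable (Z P X β vol m n B) := by
  obtain ⟨hle, -, -, hZ, -⟩ := hC2 Ω (Cube d) _ _ inferInstance _ inferInstance P X hyp β vol
    inferInstance m n
  exact (hZ B hB).mono hle le_rfl

/-- the moments of the masses `Z 0 n Q` of a small set -/
theorem small_set (hCL : S_CL) (hB2 : S_B2) (hH1 : S_H1) (hH3 : S_H3) (hd : 1 ≤ d)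
    (hyp : Hyp P X o δ ε C₀) {p : ℝ} (hp : 0 < p) (hpd : β ^ 2 / 2 * p < d)
    (Q : Set (Cube d)) (hQ : MeasurableSet Q) (hQδ : ∀ x ∈ Q, ∀ y ∈ Q, dist x y ≤ min δ 1) :
    ∃ C : ℝ, ∀ n, ∫⁻ ω, Z P X β (cubeVol d) 0 n Q ω ^ p ∂P ≤ ex C := by
  have := hyp.prob
  have : IsFiniteMeasure (cubeVol d) := (hH3 d δ hd hyp.δpos).1
  have hch : Chaos P X Q (fun n => K P X 0 n o o) :=
    hB2 Ω (Cube d) _ _ P X o δ ε C₀ hyp Q fun x hx y hy => (hQδ x hx y hy).trans (min_le_left _ _)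
  have hdpos : (0 : ℝ) < d := by exact_mod_cast hd
  obtain ⟨C, hC⟩ := hCL Ω (Cube d) _ _ inferInstance _ inferInstance P X Q _ (cubeVol d) β d hch hQ
    inferInstance (hH1 d hd) hdpos p hp.le hpd 0 0 1 one_pos
  refine ⟨C, fun n => ?_⟩
  have hz0 : K P X 0 0 o o = 0 := hch.zero
  rcases Q.eq_empty_or_nonempty with hE | ⟨z, hz⟩
  · have h0 : ∀ ω, Z P X β (cubeVol d) 0 n Q ω ^ p = 0 := fun ω => by
      rw [Z, hE]; simp [ENNReal.zero_rpow_of_pos hp]
    simp [h0]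
  · have h := hC [] 0 n Q z (Nat.zero_le n) ⟨by simp, by simp, by simp⟩ hQ subset_rfl
      (fun y hy => by
        show dist y z ≤ Real.exp (-(K P X 0 0 o o))
        rw [hz0]; simpa using (hQδ y hy z hz).trans (min_le_right _ _))
      (Or.inr fun a ha => by simp at ha)
    have hW : ∀ ω, W X ([] : List (ℝ × Cube d)) 0 n ω = 1 := fun ω => W_nil X 0 n ω
    simp only [hW, one_mul, Ph_nil, mul_one] at h
    refine h.trans (le_of_eq ?_)
    show ex (C - d * p * K P X 0 0 o o) = ex C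
    rw [hz0]; simp

/-- the moments of the total masses -/
theorem upper_n (hC2 : S_C2) (hCL : S_CL) (hB2 : S_B2) (hH1 : S_H1) (hH3 : S_H3) (hd : 1 ≤ d)
    (hyp : Hyp P X o δ ε C₀) {p : ℝ} (hp : 0 < p) (hpd : β ^ 2 / 2 * p < d) :
    ∃ C : ℝ≥0∞, C ≠ ∞ ∧ ∀ n, ∫⁻ ω, Z P X β (cubeVol d) 0 n univ ω ^ p ∂P ≤ C := by
  have := hyp.prob
  obtain ⟨hfin, ⟨N, Q, hQm, hQd, hQu⟩, -⟩ := hH3 d (min δ 1) hd (lt_min hyp.δpos one_pos)
  have hch : ∀ i, ∃ C : ℝ, ∀ n, ∫⁻ ω, Z P X β (cubeVol d) 0 n (Q i) ω ^ p ∂P ≤ ex C :=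
    fun i => small_set hCL hB2 hH1 hH3 hd hyp hp hpd (Q i) (hQm i) (hQd i)
  choose C hC using hch
  refine ⟨(N : ℝ≥0∞) ^ p * ∑ i ∈ Finset.range N, ex (C i), ?_, fun n => ?_⟩
  · refine ENNReal.mul_ne_top (ENNReal.rpow_ne_top_of_nonneg hp.le (ENNReal.natCast_ne_top N)) ?_
    exact ENNReal.sum_ne_top.2 fun i _ => ex_ne_top _
  · calc ∫⁻ ω, Z P X β (cubeVol d) 0 n univ ω ^ p ∂P
        ≤ ∫⁻ ω, (N : ℝ≥0∞) ^ p * ∑ i ∈ Finset.range N, Z P X β (cubeVol d) 0 n (Q i) ω ^ p ∂P := by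
          refine lintegral_mono fun ω => ?_
          refine le_trans (ENNReal.rpow_le_rpow ?_ hp.le) (sum_rpow_le hp N _)
          unfold Z
          rw [← hQu]
          exact lintegral_range_union_le _ _ _ _
      _ = (N : ℝ≥0∞) ^ p *
          ∑ i ∈ Finset.range N, ∫⁻ ω, Z P X β (cubeVol d) 0 n (Q i) ω ^ p ∂P := by
          have hm : ∀ i ∈ Finset.range N,
              Measurable fun ω => Z P X β (cubeVol d) 0 n (Q i) ω ^ p := fun i _ =>
            (measZ hC2 hyp.toBase (cubeVol d) 0 n (hQm i)).pow_const p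
          rw [lintegral_const_mul _ (Finset.measurable_fun_sum _ hm), lintegral_finsetSum _ hm]
      _ ≤ (N : ℝ≥0∞) ^ p * ∑ i ∈ Finset.range N, ex (C i) := by
          gcongr with i _
          exact hC i n

/-- the limit of the total masses: finite moments -/
theorem upper_lim (hC2 : S_C2) (hCL : S_CL) (hB2 : S_B2) (hH1 : S_H1) (hH3 : S_H3) (hd : 1 ≤ d)
    (hyp : Hyp P X o δ ε C₀) {p : ℝ} (hp : 0 < p) (hpd : β ^ 2 / 2 * p < d) (M' : Ω → ℝ≥0∞)
    (hM : ∀ᵐ ω ∂P, Tendsto (fun n => Z P X β (cubeVol d) 0 n univ ω) atTop (𝓝 (M' ω))) :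
    ∫⁻ ω, M' ω ^ p ∂P < ∞ := by
  obtain ⟨C, hCt, hC⟩ := upper_n hC2 hCL hB2 hH1 hH3 hd hyp hp hpd
  have : IsFiniteMeasure (cubeVol d) := (hH3 d δ hd hyp.δpos).1
  have h1 : ∫⁻ ω, M' ω ^ p ∂P =
      ∫⁻ ω, liminf (fun n => Z P X β (cubeVol d) 0 n univ ω ^ p) atTop ∂P := by
    refine lintegral_congr_ae ?_
    filter_upwards [hM] with ω hω
    exact (((ENNReal.continuous_rpow_const (y := p)).tendsto _).comp hω).liminf_eq.symm
  rw [h1]
  refine lt_of_le_of_lt (lintegral_liminf_le fun n =>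
    (measZ hC2 hyp.toBase (cubeVol d) 0 n MeasurableSet.univ).pow_const p) ?_
  refine lt_of_le_of_lt ?_ (lt_top_iff_ne_top.2 hCt)
  refine liminf_le_of_frequently_le' ?_
  exact Filter.Frequently.of_forall fun n => hC n

theorem measgh (hC2 : S_C2) (hyp : Base P X) (vol : Measure (Cube d)) [SFinite vol] (m n : ℕ) :
    Measurable fun z : Cube d × Ω => gh P X β m n z.1 z.2 := by
  obtain ⟨-, -, -, -, h⟩ := hC2 Ω (Cube d) _ _ inferInstance _ inferInstance P X hyp β vol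
    inferInstance m n
  exact h

theorem meas_slice {Ω T : Type} [MeasurableSpace Ω] [MeasurableSpace T]
    (g : T → Ω → ℝ≥0∞) (hg : Measurable fun z : T × Ω => g z.1 z.2) (ω : Ω) :
    Measurable fun x => g x ω := hg.comp measurable_prodMk_right

theorem swap_aux {Ω T : Type} [MeasurableSpace Ω] [MeasurableSpace T] {P : Measure Ω} [SFinite P]
    (g : T → Ω → ℝ≥0∞) (hg : Measurable fun z : T × Ω => g z.1 z.2) (Y : Ω → ℝ≥0∞)
    (hY : Measurable Y) (vol : Measure T) [SFinite vol] (Q : Set T) :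
    ∫⁻ x in Q, (∫⁻ ω, g x ω * Y ω ∂P) ∂vol = ∫⁻ ω, (∫⁻ x in Q, g x ω ∂vol) * Y ω ∂P := by
  have hm : Measurable fun z : T × Ω => g z.1 z.2 * Y z.2 := hg.mul (hY.comp measurable_snd)
  rw [lintegral_lintegral_swap (μ := vol.restrict Q) (ν := P)
    (f := fun x ω => g x ω * Y ω) hm.aemeasurable]
  refine lintegral_congr fun ω => ?_
  exact lintegral_mul_const _ (hg.comp measurable_prodMk_right)

/-- the geometry used for the lower bounds -/
theorem annuli (hB2 : S_B2) (hH2 : S_H2) (hH3 : S_H3) (hd : 1 ≤ d) (hyp : Hyp P X o δ ε C₀) :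
    ∃ (z : Cube d) (η : ℝ) (Q : Set (Cube d)) (C₂ σ : ℝ), MeasurableSet Q ∧
      Chaos P X Q (fun n => K P X 0 n o o) ∧ cubeVol d (Metric.closedBall z η) ≠ 0 ∧
      Metric.closedBall z η ⊆ Q ∧ ∀ x ∈ Metric.closedBall z η, ∀ k : ℕ, σ ≤ K P X 0 k o o →
      ∃ B : Set (Cube d), MeasurableSet B ∧ B ⊆ Q ∧
        B ⊆ Metric.closedBall x (Real.exp (-(K P X 0 k o o))) ∧
        (∀ y ∈ B, 1 / 2 * Real.exp (-(K P X 0 k o o)) ≤ dist x y) ∧
        ex (-C₂ - d * K P X 0 k o o) ≤ cubeVol d B := by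
  obtain ⟨hfin, -, z, η, hη, hηδ, hvol, hcen⟩ := hH3 d (min δ 1) hd (lt_min hyp.δpos one_pos)
  obtain ⟨C₂, hC₂⟩ := hH2 d hd
  have hδ1 : (0 : ℝ) < min δ 1 := lt_min hyp.δpos one_pos
  refine ⟨z, η, Metric.closedBall z (min δ 1 / 2), C₂, -(Real.log (min δ 1 / 4)),
    Metric.isClosed_closedBall.measurableSet, ?_, hvol.ne',
    Metric.closedBall_subset_closedBall (by linarith), ?_⟩
  · refine hB2 Ω (Cube d) _ _ P X o δ ε C₀ hyp _ fun x hx y hy => ?_
    have h1 : dist x z ≤ min δ 1 / 2 := hx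
    have h2 : dist y z ≤ min δ 1 / 2 := hy
    have h3 : dist x y ≤ dist x z + dist y z := dist_triangle_right x y z
    have h4 : min δ 1 ≤ δ := min_le_left _ _
    linarith
  · intro x hx k hk
    have he : Real.exp (-(K P X 0 k o o)) ≤ min δ 1 / 4 := by
      calc Real.exp (-(K P X 0 k o o)) ≤ Real.exp (Real.log (min δ 1 / 4)) :=
            Real.exp_le_exp.2 (by linarith)
        _ = min δ 1 / 4 := Real.exp_log (by positivity)
    refine ⟨{y : Cube d | dist x y ≤ Real.exp (-(K P X 0 k o o)) ∧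
      Real.exp (-(K P X 0 k o o)) / 2 ≤ dist x y}, ?_, ?_, ?_, ?_, ?_⟩
    · have hcd : Continuous fun y : Cube d => dist x y := continuous_const.dist continuous_id
      exact ((isClosed_le hcd continuous_const).inter
        (isClosed_le continuous_const hcd)).measurableSet
    · intro y hy
      have h1 : dist x y ≤ Real.exp (-(K P X 0 k o o)) := hy.1
      have h2 : dist x z ≤ η := hx
      have h3 : dist y z ≤ dist x y + dist x z := dist_triangle_left y z x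
      show dist y z ≤ min δ 1 / 2
      linarith
    · intro y hy
      show dist y x ≤ _
      rw [dist_comm]; exact hy.1
    · intro y hy
      have h1 := hy.2
      linarith
    · have h := hC₂ x (-(K P X 0 k o o)) (hcen x hx) (by
        have : min δ 1 ≤ 1 := min_le_right _ _
        linarith)
      refine le_trans (le_of_eq ?_) h
      congr 1; ring

/-- the critical moments of the masses are unbounded -/
theorem lower_n (hC2 : S_C2) (hF2 : S_F2) (hB2 : S_B2) (hH1 : S_H1) (hH2 : S_H2) (hH3 : S_H3)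
    (hd : 1 ≤ d) (hyp : Hyp P X o δ ε C₀) (hβ : 0 < β) (hβd : β ^ 2 / 2 < d) :
    ∃ v : ℝ≥0∞, v ≠ 0 ∧ v ≠ ∞ ∧ ∀ H : ℝ, ∃ n,
      ENNReal.ofReal H * v ≤ ∫⁻ ω, Z P X β (cubeVol d) 0 n univ ω ^ (2 * d / β ^ 2) ∂P := by
  have := hyp.prob
  have hfin : IsFiniteMeasure (cubeVol d) := (hH3 d δ hd hyp.δpos).1
  have hdpos : (0 : ℝ) < d := by exact_mod_cast hd
  obtain ⟨z, η, Q, C₂, σ, hQm, hch, hvol, hsub, hcond⟩ := annuli hB2 hH2 hH3 hd hyp
  have hF := hF2 Ω (Cube d) _ _ inferInstance _ inferInstance P X Q _ (cubeVol d) β d hch hQm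
    inferInstance (hH1 d hd) hdpos hβ hβd Q hQm subset_rfl (1 / 2) C₂ σ (by norm_num)
  refine ⟨cubeVol d (Metric.closedBall z η), hvol, measure_ne_top _ _, fun H => ?_⟩
  obtain ⟨n₀, hn₀⟩ := hF H
  refine ⟨n₀, ?_⟩
  have hq : (0 : ℝ) < 2 * d / β ^ 2 - 1 := by
    rw [sub_pos, lt_div_iff₀ (by positivity)]; linarith
  set q : ℝ := 2 * d / β ^ 2 - 1 with hqdef
  have hZm : Measurable (Z P X β (cubeVol d) 0 n₀ Q) := measZ hC2 hyp.toBase (cubeVol d) 0 n₀ hQm
  have hgm := measgh (β := β) hC2 hyp.toBase (cubeVol d) 0 n₀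
  calc ENNReal.ofReal H * cubeVol d (Metric.closedBall z η)
      = ∫⁻ _x in Metric.closedBall z η, ENNReal.ofReal H ∂(cubeVol d) := by
        rw [setLIntegral_const]
    _ ≤ ∫⁻ x in Metric.closedBall z η,
          (∫⁻ ω, gh P X β 0 n₀ x ω * Z P X β (cubeVol d) 0 n₀ Q ω ^ q ∂P) ∂(cubeVol d) := by
        refine setLIntegral_mono' Metric.isClosed_closedBall.measurableSet fun x hx => ?_
        exact hn₀ n₀ le_rfl x (hsub hx) (hcond x hx)
    _ ≤ ∫⁻ x in Q,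
          (∫⁻ ω, gh P X β 0 n₀ x ω * Z P X β (cubeVol d) 0 n₀ Q ω ^ q ∂P) ∂(cubeVol d) :=
        lintegral_mono_set hsub
    _ = ∫⁻ ω, Z P X β (cubeVol d) 0 n₀ Q ω * Z P X β (cubeVol d) 0 n₀ Q ω ^ q ∂P :=
        swap_aux (gh P X β 0 n₀) hgm _ (hZm.pow_const q) (cubeVol d) Q
    _ ≤ ∫⁻ ω, Z P X β (cubeVol d) 0 n₀ univ ω ^ (2 * d / β ^ 2) ∂P := by
        refine lintegral_mono fun ω => ?_
        have h1 : (2 * d / β ^ 2 : ℝ) = 1 + q := by rw [hqdef]; ring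
        have h2 : Z P X β (cubeVol d) 0 n₀ Q ω ≤ Z P X β (cubeVol d) 0 n₀ univ ω :=
          lintegral_mono_set (subset_univ _)
        show Z P X β (cubeVol d) 0 n₀ Q ω * Z P X β (cubeVol d) 0 n₀ Q ω ^ q ≤
          Z P X β (cubeVol d) 0 n₀ univ ω ^ (2 * d / β ^ 2)
        rw [h1, ENNReal.rpow_add_of_nonneg _ _ zero_le_one hq.le, ENNReal.rpow_one]
        exact mul_le_mul' h2 (ENNReal.rpow_le_rpow h2 hq.le)

theorem ex_add (a b : ℝ) : ex (a + b) = ex a * ex b := by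
  rw [ex, ex, ex, ← ENNReal.ofReal_mul (Real.exp_pos a).le, Real.exp_add]

/-- the lower bound for the tail of the limit of the total masses -/
theorem tail_lower (hC2 : S_C2) (hCL : S_CL) (hT1 : S_T1) (hT3 : S_T3) (hB2 : S_B2) (hH1 : S_H1)
    (hH2 : S_H2) (hH3 : S_H3) (hd : 1 ≤ d) (hyp : Hyp P X o δ ε C₀) (hβ : 0 < β)
    (hβd : β ^ 2 / 2 < d) (M' : Ω → ℝ≥0∞)
    (hM : ∀ᵐ ω ∂P, Tendsto (fun n => Z P X β (cubeVol d) 0 n univ ω) atTop (𝓝 (M' ω)))
    (e : ℝ) (he : 0 < e) :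
    ∀ᶠ t : ℝ in atTop, ENNReal.ofReal (t ^ (-(2 * d / β ^ 2 + e))) ≤
      P {ω | ENNReal.ofReal t < M' ω} := by
  have := hyp.prob
  have hfin : IsFiniteMeasure (cubeVol d) := (hH3 d δ hd hyp.δpos).1
  have hdpos : (0 : ℝ) < d := by exact_mod_cast hd
  obtain ⟨z, η, Q, C₂, σ, hQm, hch, hvol, hsub, hcond⟩ := annuli hB2 hH2 hH3 hd hyp
  have hq : (0 : ℝ) < 2 * d / β ^ 2 - 1 := by
    rw [sub_pos, lt_div_iff₀ (by positivity)]; linarith
  have hv : (0 : ℝ) < d - β ^ 2 / 2 := by linarith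
  obtain ⟨D, hD⟩ := hch.step
  have h := hT3 Ω _ P inferInstance (fun n => Z P X β (cubeVol d) 0 n univ) M'
    (fun n => measZ hC2 hyp.toBase (cubeVol d) 0 n MeasurableSet.univ) hM
    (fun n => K P X 0 n o o) D (2 * d / β ^ 2 - 1) (d - β ^ 2 / 2) hD hch.top hq hv ?_ ?_ e he
  · filter_upwards [h] with t ht
    refine le_trans (le_of_eq ?_) ht
    congr 2; ring
  · intro r hr1 hr2
    refine upper_n (β := β) hC2 hCL hB2 hH1 hH3 hd hyp (p := r) (by linarith) ?_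
    have h1 : β ^ 2 / 2 * (2 * d / β ^ 2) = d := by field_simp
    have h2 : β ^ 2 / 2 * r < β ^ 2 / 2 * (2 * d / β ^ 2) := by
      have : 0 < β ^ 2 / 2 := by positivity
      exact mul_lt_mul_of_pos_left (by linarith) this
    linarith
  · intro e' he'
    obtain ⟨C1, σ1, hC1⟩ := hT1 Ω (Cube d) _ _ inferInstance _ inferInstance P X Q _ (cubeVol d) β d
      hch hQm inferInstance (hH1 d hd) hdpos hβ hβd Q hQm subset_rfl (1 / 2) C₂ e' (by norm_num) he'
    set v₀ : ℝ := (cubeVol d (Metric.closedBall z η)).toReal with hv₀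
    have hv₀pos : 0 < v₀ := ENNReal.toReal_pos hvol (measure_ne_top _ _)
    have hexv : ex (Real.log v₀) = cubeVol d (Metric.closedBall z η) := by
      rw [ex, Real.exp_log hv₀pos, hv₀, ENNReal.ofReal_toReal (measure_ne_top _ _)]
    refine ⟨C1 - Real.log v₀, max σ σ1, fun k n hkn hk => ?_⟩
    set τ : ℝ≥0∞ := ex ((d - β ^ 2 / 2 - e') * K P X 0 k o o - 1) with hτ
    have hZm : Measurable (Z P X β (cubeVol d) 0 n Q) := measZ hC2 hyp.toBase (cubeVol d) 0 n hQm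
    have hgm := measgh (β := β) hC2 hyp.toBase (cubeVol d) 0 n
    set E : Set Ω := {ω | τ ≤ Z P X β (cubeVol d) 0 n Q ω} with hE
    set a : ℝ := -C1 - (d - β ^ 2 / 2 + e') * (2 * d / β ^ 2 - 1) * K P X 0 k o o with ha
    have h1 : ex (-(C1 - Real.log v₀) -
        (d - β ^ 2 / 2 + e') * (2 * d / β ^ 2 - 1) * K P X 0 k o o) =
        ex a * cubeVol d (Metric.closedBall z η) := by
      rw [← hexv, ← ex_add]; congr 1; rw [ha]; ring
    rw [h1]
    calc ex a * cubeVol d (Metric.closedBall z η)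
        = ∫⁻ _x in Metric.closedBall z η, ex a ∂(cubeVol d) := by rw [setLIntegral_const]
      _ ≤ ∫⁻ x in Metric.closedBall z η,
            (∫⁻ ω in E, gh P X β 0 n x ω * 1 ∂P) ∂(cubeVol d) := by
          refine setLIntegral_mono' Metric.isClosed_closedBall.measurableSet fun x hx => ?_
          obtain ⟨B, hB1, hB2', hB3, hB4, hB5⟩ := hcond x hx k ((le_max_left _ _).trans hk)
          simp only [mul_one]
          exact hC1 k n B x hkn ((le_max_right _ _).trans hk) (hsub hx) hB1 hB2' hB3 hB4 hB5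
      _ = ∫⁻ ω in E, (∫⁻ x in Metric.closedBall z η, gh P X β 0 n x ω ∂(cubeVol d)) * 1 ∂P :=
          swap_aux (P := P.restrict E) (gh P X β 0 n) hgm (fun _ => 1) measurable_const
            (cubeVol d) _
      _ ≤ ∫⁻ ω in E, Z P X β (cubeVol d) 0 n univ ω ∂P := by
          refine lintegral_mono fun ω => ?_
          show (∫⁻ x in Metric.closedBall z η, gh P X β 0 n x ω ∂(cubeVol d)) * 1 ≤ _
          rw [mul_one]
          exact lintegral_mono_set (subset_univ _)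
      _ ≤ ∫⁻ ω in {ω | τ ≤ Z P X β (cubeVol d) 0 n univ ω},
            Z P X β (cubeVol d) 0 n univ ω ∂P := by
          refine lintegral_mono_set fun ω hω => ?_
          have h2 : Z P X β (cubeVol d) 0 n Q ω ≤ Z P X β (cubeVol d) 0 n univ ω :=
            lintegral_mono_set (subset_univ _)
          exact le_trans hω h2

/-- the limit of the total masses: infinite moments -/
theorem lower_lim (hC2 : S_C2) (hC4 : S_C4) (hCL : S_CL) (hF2 : S_F2) (hG1 : S_G1) (hB2 : S_B2)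
    (hB2b : S_B2b) (hH1 : S_H1) (hH2 : S_H2) (hH3 : S_H3)
    (hd : 1 ≤ d) (hyp : Hyp P X o δ ε C₀) (hβ : 0 < β) (hβd : β ^ 2 / 2 < d) {p : ℝ}
    (hp : 2 * d / β ^ 2 ≤ p) (M' : Ω → ℝ≥0∞)
    (hM : ∀ᵐ ω ∂P, Tendsto (fun n => Z P X β (cubeVol d) 0 n univ ω) atTop (𝓝 (M' ω))) :
    ∫⁻ ω, M' ω ^ p ∂P = ∞ := by
  have := hyp.prob
  have hfin : IsFiniteMeasure (cubeVol d) := (hH3 d δ hd hyp.δpos).1
  obtain ⟨v, hv0, hvt, hv⟩ := lower_n hC2 hF2 hB2 hH1 hH2 hH3 hd hyp hβ hβd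
  have hq : (1 : ℝ) < 2 * d / β ^ 2 := by
    rw [lt_div_iff₀ (by positivity)]; linarith
  set pc : ℝ := 2 * d / β ^ 2 with hpc
  have hr1 : 1 < (1 + pc) / 2 := by linarith
  obtain ⟨C, hCt, hC⟩ := upper_n (β := β) hC2 hCL hB2 hH1 hH3 hd hyp (p := (1 + pc) / 2)
    (by linarith) (by
      have h1 : β ^ 2 / 2 * pc = d := by rw [hpc]; field_simp
      have h2 : β ^ 2 / 2 * ((1 + pc) / 2) < β ^ 2 / 2 * pc := by
        have : 0 < β ^ 2 / 2 := by positivity
        exact mul_lt_mul_of_pos_left (by linarith) this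
      linarith)
  have hPh : ∀ (x : Cube d) (m n : ℕ), Ph P X [(β, x)] m n ≠ ∞ := by
    intro x m n
    obtain ⟨C1, hC1⟩ := hB2b Ω (Cube d) _ _ P X o δ ε C₀ hyp 1 |β|
    rcases le_total m n with hmn | hmn
    · exact ne_top_of_le_ne_top (ex_ne_top _) (hC1 [(β, x)] m n
        ⟨by simp, by simp, by simp⟩ hmn).2
    · have : Finset.Ico m n = ∅ := Finset.Ico_eq_empty (by omega)
      have h1 : ∀ ω, W X [(β, x)] m n ω = 1 := fun ω => by simp [W, ev, S, this]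
      simp [Ph, h1]
  have key : ∀ n, ∫⁻ ω, Z P X β (cubeVol d) 0 n univ ω ^ pc ∂P ≤ ∫⁻ ω, M' ω ^ pc ∂P := by
    refine hG1 Ω _ P inferInstance _ M'
      (fun n => measZ hC2 hyp.toBase (cubeVol d) 0 n MeasurableSet.univ) hM ?_ _ C hr1 hCt hC pc
      hq.le
    intro n n' hnn' g hg
    refine hC4 Ω (Cube d) _ _ inferInstance _ inferInstance P X hyp.toBase β hPh (cubeVol d)
      inferInstance univ MeasurableSet.univ n n' hnn' _ ?_
    obtain ⟨-, -, -, hZ, -⟩ := hC2 Ω (Cube d) _ _ inferInstance _ inferInstance P X hyp.toBase β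
      (cubeVol d) inferInstance 0 n
    exact hg.comp (hZ univ MeasurableSet.univ)
  have hinf : ∫⁻ ω, M' ω ^ pc ∂P = ∞ := by
    by_contra hne
    have h1 : (∫⁻ ω, M' ω ^ pc ∂P) / v ≠ ∞ := ENNReal.div_ne_top hne hv0
    obtain ⟨n, hn⟩ := hv (((∫⁻ ω, M' ω ^ pc ∂P) / v).toReal + 1)
    have h2 := hn.trans (key n)
    rw [← ENNReal.le_div_iff_mul_le (Or.inl hv0) (Or.inl hvt)] at h2
    have h3 := ENNReal.toReal_mono h1 h2
    rw [ENNReal.toReal_ofReal (by positivity)] at h3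
    linarith
  by_contra hne
  have h4 : ∫⁻ ω, M' ω ^ pc ∂P ≤ ∫⁻ ω, (1 + M' ω ^ p) ∂P := by
    refine lintegral_mono fun ω => ?_
    rcases le_total (M' ω) 1 with h | h
    · exact (ENNReal.rpow_le_one h (by linarith)).trans le_self_add
    · exact (ENNReal.rpow_le_rpow_of_exponent_le h hp).trans le_add_self
  rw [hinf, lintegral_add_left measurable_const] at h4
  simp [hne] at h4

end

end Pool.Agent.H629.GC.Fin
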