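import Pool.Agent.H629.GC.Defs

set_option autoImplicit false

open MeasureTheory ProbabilityTheory Set Filter
open scoped ENNReal Topology

/-!
# Moments of non-Gaussian multiplicative chaos (MP_b1920d_pr): statements of the parts
-/

namespace Pool.Agent.H629.GC

noncomputable section

/-! ### A. Inequalities for integrals -/

/-- A1: Hölder with the weight `G` (for `0 ≤ t ≤ 1`). -/
def S_A1 : Prop := ∀ (Ω : Type) (_ : MeasurableSpace Ω) (μ : Measure Ω) (G Y : Ω → ℝ≥0∞),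
  AEMeasurable G μ → AEMeasurable Y μ → ∀ t : ℝ, 0 ≤ t → t ≤ 1 →
  ∫⁻ ω, G ω * Y ω ^ t ∂μ ≤ (∫⁻ ω, G ω ∂μ) ^ (1 - t) * (∫⁻ ω, G ω * Y ω ∂μ) ^ t

/-- A1b: the same with exponents `r ≥ 1`. -/
def S_A1b : Prop := ∀ (Ω : Type) (_ : MeasurableSpace Ω) (μ : Measure Ω) (G Y : Ω → ℝ≥0∞),
  AEMeasurable G μ → AEMeasurable Y μ → ∀ r : ℝ, 1 ≤ r →
  (∫⁻ ω, G ω * Y ω ∂μ) ^ r ≤ (∫⁻ ω, G ω ∂μ) ^ (r - 1) * ∫⁻ ω, G ω * Y ω ^ r ∂μ

/-- A2: powers of sums, with exponential weights. -/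
def S_A2 : Prop := ∀ r κ : ℝ, 0 < r → 0 < κ → ∃ C : ℝ, ∀ (N : ℕ) (z : ℕ → ℝ≥0∞),
  (∑ j ∈ Finset.range N, z j) ^ r ≤ ex C * ∑ j ∈ Finset.range N, ex (κ * j) * z j ^ r

/-- A3: interpolation between the exponents `q < 1 < r`. -/
def S_A3 : Prop := ∀ (Ω : Type) (_ : MeasurableSpace Ω) (μ : Measure Ω) (G Y : Ω → ℝ≥0∞),
  AEMeasurable G μ → AEMeasurable Y μ → ∀ q r : ℝ, 0 < q → q < 1 → 1 < r →
  ∫⁻ ω, G ω * Y ω ∂μ ≤ (∫⁻ ω, G ω * Y ω ^ q ∂μ) ^ ((r - 1) / (r - q)) *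
    (∫⁻ ω, G ω * Y ω ^ r ∂μ) ^ ((1 - q) / (r - q))

/-- A4: disjoint windows (`-` is truncated). -/
def S_A4 : Prop := ∀ (q : ℝ) (a b : ℕ → ℝ) (y : ℝ≥0∞) (N : ℕ), 0 < q → (∀ i, a i ≤ b i) →
  (∀ i, b i ≤ a (i + 1)) → ∑ i ∈ Finset.range N, (min y (ex (b i)) ^ q - ex (a i) ^ q) ≤ y ^ q

/-- A5: a lower bound for the part of `G Y ^ q` in a window, from the moments of the orders
`q`, `q + h`, `q - h`. -/
def S_A5 : Prop := ∀ (q h v γ e C : ℝ), 0 < h → h < q → γ < e * h → ∃ C' σ : ℝ,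
  ∀ (Ω : Type) (_ : MeasurableSpace Ω) (μ : Measure Ω) (G Y : Ω → ℝ≥0∞), Measurable G →
  Measurable Y → ∀ s : ℝ, σ ≤ s → ex (-C) ≤ ∫⁻ ω, G ω * Y ω ^ q ∂μ →
  ∫⁻ ω, G ω * Y ω ^ (q + h) ∂μ ≤ ex (C + s * (v * h + γ)) →
  ∫⁻ ω, G ω * Y ω ^ (q - h) ∂μ ≤ ex (C + s * (γ - v * h)) →
  ex (-C') ≤ ∫⁻ ω, G ω * (min (Y ω) (ex ((v + e) * s)) ^ q - ex ((v - e) * s - 1) ^ q) ∂μ

/-! ### C. Independence and measurability -/

/-- C1: independence of the two blocks. -/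
def S_C1 : Prop := ∀ (Ω T : Type) (_ : MeasurableSpace Ω) (_ : MetricSpace T) (P : Measure Ω)
  (X : ℕ → T → Ω → ℝ), Base P X → ∀ (m k n : ℕ) (U V : Ω → ℝ≥0∞),
  Measurable[Sg X m k] U → Measurable[Sg X k n] V →
  ∫⁻ ω, U ω * V ω ∂P = (∫⁻ ω, U ω ∂P) * ∫⁻ ω, V ω ∂P

/-- C2: measurability of the weights, densities and masses with respect to the fields used. -/
def S_C2 : Prop := ∀ (Ω T : Type) (_ : MeasurableSpace Ω) (_ : MetricSpace T)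
  (_ : SecondCountableTopology T) (_ : MeasurableSpace T) (_ : BorelSpace T) (P : Measure Ω)
  (X : ℕ → T → Ω → ℝ), Base P X → ∀ (β : ℝ) (vol : Measure T), SFinite vol → ∀ (m n : ℕ),
  Sg X m n ≤ (inferInstance : MeasurableSpace Ω) ∧
  (∀ L : List (ℝ × T), Measurable[Sg X m n] (W X L m n)) ∧
  (∀ x : T, Measurable[Sg X m n] (gh P X β m n x)) ∧
  (∀ B : Set T, MeasurableSet B → Measurable[Sg X m n] (Z P X β vol m n B)) ∧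
  Measurable (fun z : T × Ω => gh P X β m n z.1 z.2)

/-- C3: multiplicativity, positivity and finiteness. (`0 < Ph` always holds, `Ph < ∞` follows
from the property `mp`.) -/
def S_C3 : Prop := ∀ (Ω T : Type) (_ : MeasurableSpace Ω) (_ : MetricSpace T)
  (_ : SecondCountableTopology T) (_ : MeasurableSpace T) (_ : BorelSpace T) (P : Measure Ω)
  (X : ℕ → T → Ω → ℝ) (Q : Set T) (s : ℕ → ℝ), Chaos P X Q s →
  (∀ (L : List (ℝ × T)) (m n : ℕ), (∀ a ∈ L, a.2 ∈ Q) → m ≤ n →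
    Ph P X L m n ≠ 0 ∧ Ph P X L m n ≠ ∞) ∧
  (∀ (L : List (ℝ × T)) (m k n : ℕ) (ω : Ω), m ≤ k → k ≤ n →
    W X L m n ω = W X L m k ω * W X L k n ω) ∧
  (∀ (L : List (ℝ × T)) (m k n : ℕ), m ≤ k → k ≤ n →
    Ph P X L m n = Ph P X L m k * Ph P X L k n) ∧
  (∀ (β : ℝ) (x : T) (m k n : ℕ) (ω : Ω), x ∈ Q → m ≤ k → k ≤ n →
    gh P X β m n x ω = gh P X β m k x ω * gh P X β k n x ω)

/-- C4: the masses form a martingale. -/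
def S_C4 : Prop := ∀ (Ω T : Type) (_ : MeasurableSpace Ω) (_ : MetricSpace T)
  (_ : SecondCountableTopology T) (_ : MeasurableSpace T) (_ : BorelSpace T) (P : Measure Ω)
  (X : ℕ → T → Ω → ℝ), Base P X → ∀ (β : ℝ),
  (∀ (x : T) (m n : ℕ), Ph P X [(β, x)] m n ≠ ∞) →
  ∀ (vol : Measure T), SFinite vol → ∀ (A : Set T), MeasurableSet A →
  ∀ (n n' : ℕ), n ≤ n' → ∀ g : Ω → ℝ≥0∞, Measurable[Sg X 0 n] g →
  ∫⁻ ω, g ω * Z P X β vol 0 n' A ω ∂P = ∫⁻ ω, g ω * Z P X β vol 0 n A ω ∂P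

/-! ### D. Tilted expectations of densities at one or two points -/

/-- D1: two points which are close on the scale `n`. -/
def S_D1 : Prop := ∀ (Ω T : Type) (_ : MeasurableSpace Ω) (_ : MetricSpace T) (P : Measure Ω)
  (X : ℕ → T → Ω → ℝ) (Q : Set T) (s : ℕ → ℝ), Chaos P X Q s → ∀ (β : ℝ) (N : ℕ) (Λ c R : ℝ),
  0 < c → ∃ C : ℝ, ∀ (L : List (ℝ × T)) (m n : ℕ) (x y : T) (U V : ℝ), m ≤ n → Adm Q N Λ L →
  x ∈ Q → y ∈ Q → |U| ≤ Λ → |V| ≤ Λ → dist x y ≤ R * Real.exp (-(s n)) →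
  Far c (s m) L {x} → Far c (s m) L {y} →
  ex (-C + β ^ 2 / 2 * ((U + V) ^ 2 - (U + V)) * (s n - s m)) * Ph P X L m n ≤
    ∫⁻ ω, W X L m n ω * gh P X β m n x ω ^ U * gh P X β m n y ω ^ V ∂P ∧
  ∫⁻ ω, W X L m n ω * gh P X β m n x ω ^ U * gh P X β m n y ω ^ V ∂P ≤
    ex (C + β ^ 2 / 2 * ((U + V) ^ 2 - (U + V)) * (s n - s m)) * Ph P X L m n

/-- D2: two points which are far on the scale `m` (or no fields at all). -/
def S_D2 : Prop := ∀ (Ω T : Type) (_ : MeasurableSpace Ω) (_ : MetricSpace T) (P : Measure Ω)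
  (X : ℕ → T → Ω → ℝ) (Q : Set T) (s : ℕ → ℝ), Chaos P X Q s → ∀ (β : ℝ) (N : ℕ) (Λ c : ℝ),
  0 < c → ∃ C : ℝ, ∀ (L : List (ℝ × T)) (m n : ℕ) (x y : T), m ≤ n → Adm Q N Λ L →
  x ∈ Q → y ∈ Q →
  (m = n ∨ (c * Real.exp (-(s m)) ≤ dist x y ∧ Far c (s m) L {x} ∧ Far c (s m) L {y})) →
  ex (-C) * Ph P X L m n ≤
    ∫⁻ ω, W X L m n ω * gh P X β m n x ω * gh P X β m n y ω ∂P ∧
  ∫⁻ ω, W X L m n ω * gh P X β m n x ω * gh P X β m n y ω ∂P ≤ ex C * Ph P X L m n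

/-- D3: one point which is far from the list on the scale `m` (or no fields at all). -/
def S_D3 : Prop := ∀ (Ω T : Type) (_ : MeasurableSpace Ω) (_ : MetricSpace T) (P : Measure Ω)
  (X : ℕ → T → Ω → ℝ) (Q : Set T) (s : ℕ → ℝ), Chaos P X Q s → ∀ (β : ℝ) (N : ℕ) (Λ c : ℝ),
  0 < c → ∃ C : ℝ, ∀ (L : List (ℝ × T)) (m n : ℕ) (x : T), m ≤ n → Adm Q N Λ L →
  x ∈ Q → (m = n ∨ Far c (s m) L {x}) →
  ∫⁻ ω, W X L m n ω * gh P X β m n x ω ∂P ≤ ex C * Ph P X L m n ∧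
  Ph P X ((β, x) :: L) m n ≤ ex C * (Ph P X [(β, x)] m n * Ph P X L m n)

/-! ### E. The moment bounds -/

/-- the general assumptions of the parts E and F -/
def Ass (body : ∀ (Ω T : Type) (_ : MeasurableSpace Ω) (_ : MetricSpace T)
    (_ : MeasurableSpace T) (P : Measure Ω) (X : ℕ → T → Ω → ℝ) (Q : Set T) (s : ℕ → ℝ)
    (vol : Measure T) (β d : ℝ), Prop) : Prop :=
  ∀ (Ω T : Type) (i₁ : MeasurableSpace Ω) (i₂ : MetricSpace T)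
    (_ : SecondCountableTopology T) (i₃ : MeasurableSpace T) (_ : BorelSpace T) (P : Measure Ω)
    (X : ℕ → T → Ω → ℝ) (Q : Set T) (s : ℕ → ℝ) (vol : Measure T) (β d : ℝ), Chaos P X Q s →
    MeasurableSet Q → SFinite vol → Reg vol d → 0 < d → body Ω T i₁ i₂ i₃ P X Q s vol β d

/-- E0: the orders `0 ≤ q ≤ 1`. -/
def S_E0 : Prop := Ass fun _Ω _T _ _ _ P X Q s vol β d =>
  ∀ q : ℝ, 0 ≤ q → q ≤ 1 → Claim P X Q s vol β d q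

/-- E1: one piece, `0 < r < 1`. -/
def S_E1 : Prop := Ass fun _Ω _T _ _ _ P X Q s vol β d =>
  ∀ r u : ℝ, 0 < r → r < 1 → Piece P X Q s vol β d r u

/-- E2: one piece, `r ≥ 1`. -/
def S_E2 : Prop := Ass fun _Ω _T _ _ _ P X Q s vol β d =>
  ∀ r u : ℝ, 1 ≤ r → Claim P X Q s vol β d r → Piece P X Q s vol β d r u

/-- E3: from the pieces of order `r` to the moments of the order `r + 1`. -/
def S_E3 : Prop := Ass fun _Ω _T _ _ _ P X Q s vol β d =>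
  ∀ r : ℝ, 0 < r → β ^ 2 / 2 * (1 + r) < d → Piece P X Q s vol β d r 0 →
    Claim P X Q s vol β d (r + 1)

/-! ### F. The lower bound -/

/-- F1: the lower bound for one piece. -/
def S_F1 : Prop := Ass fun _Ω T _ _ _ P X Q s vol β d =>
  ∀ q : ℝ, 0 < q → β ^ 2 / 2 < d → (∀ r : ℝ, 0 ≤ r → β ^ 2 / 2 * r < d → Claim P X Q s vol β d r) →
    ∀ c C₀ : ℝ, 0 < c → ∃ C : ℝ, ∀ (k n : ℕ) (B : Set T) (x : T), k ≤ n → MeasurableSet B →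
      B ⊆ Q → x ∈ Q → B ⊆ Metric.closedBall x (Real.exp (-(s k))) →
      (∀ y ∈ B, c * Real.exp (-(s k)) ≤ dist x y) → ex (-C₀ - d * s k) ≤ vol B →
      ex (-C + β ^ 2 / 2 * ((1 + q) ^ 2 - (1 + q)) * s k - d * q * s k) ≤
        ∫⁻ ω, gh P X β 0 n x ω * Z P X β vol 0 n B ω ^ q ∂P

/-- F2: the weighted moment of the critical order `q = 2 d / β² - 1` is unbounded. -/
def S_F2 : Prop := Ass fun _Ω T _ _ _ P X Q s vol β d =>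
  0 < β → β ^ 2 / 2 < d → ∀ (A : Set T), MeasurableSet A → A ⊆ Q → ∀ (c C₀ σ : ℝ), 0 < c →
    ∀ H : ℝ, ∃ n₀ : ℕ, ∀ n, n₀ ≤ n → ∀ x ∈ Q,
      (∀ k, σ ≤ s k → ∃ B : Set T, MeasurableSet B ∧ B ⊆ A ∧
        B ⊆ Metric.closedBall x (Real.exp (-(s k))) ∧
        (∀ y ∈ B, c * Real.exp (-(s k)) ≤ dist x y) ∧ ex (-C₀ - d * s k) ≤ vol B) →
      ENNReal.ofReal H ≤ ∫⁻ ω, gh P X β 0 n x ω * Z P X β vol 0 n A ω ^ (2 * d / β ^ 2 - 1) ∂P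

/-! ### G. Limits -/

/-- G1: for martingales bounded in some `L^r`, `r > 1`, the moments of the limit are not smaller. -/
def S_G1 : Prop := ∀ (Ω : Type) (_ : MeasurableSpace Ω) (P : Measure Ω), IsProbabilityMeasure P →
  ∀ (M : ℕ → Ω → ℝ≥0∞) (M' : Ω → ℝ≥0∞), (∀ n, Measurable (M n)) →
  (∀ᵐ ω ∂P, Tendsto (fun n => M n ω) atTop (𝓝 (M' ω))) →
  (∀ n n', n ≤ n' → ∀ g : ℝ≥0∞ → ℝ≥0∞, Measurable g →
    ∫⁻ ω, g (M n ω) * M n' ω ∂P = ∫⁻ ω, g (M n ω) * M n ω ∂P) →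
  ∀ (r : ℝ) (C : ℝ≥0∞), 1 < r → C ≠ ∞ → (∀ n, ∫⁻ ω, M n ω ^ r ∂P ≤ C) →
  ∀ p : ℝ, 1 ≤ p → ∀ n, ∫⁻ ω, M n ω ^ p ∂P ≤ ∫⁻ ω, M' ω ^ p ∂P

/-- G2: existence of the limit. -/
def S_G2 : Prop := ∀ (Ω T : Type) (_ : MeasurableSpace Ω) (_ : MetricSpace T)
  (_ : SecondCountableTopology T) (_ : MeasurableSpace T) (_ : BorelSpace T) (P : Measure Ω)
  (X : ℕ → T → Ω → ℝ), Base P X → ∀ (β : ℝ),
  (∀ (x : T) (m n : ℕ), Ph P X [(β, x)] m n ≠ ∞) →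
  ∀ (vol : Measure T), IsFiniteMeasure vol → ∀ (A : Set T), MeasurableSet A →
  ∃ M' : Ω → ℝ≥0∞, Measurable M' ∧
    (∀ᵐ ω ∂P, Tendsto (fun n => Z P X β vol 0 n A ω) atTop (𝓝 (M' ω))) ∧ ∀ᵐ ω ∂P, M' ω ≠ ∞

/-! ### B. From the assumptions of the problem to `Chaos` -/

/-- B1: the exponential moments of a linear combination of centred variables, to the second
order. -/
def S_B1 : Prop := ∀ (ε : ℝ) (b : ℝ → ℝ) (N : ℕ) (Λ : ℝ), 0 < ε → ∃ C : ℝ,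
  ∀ (Ω : Type) (_ : MeasurableSpace Ω) (P : Measure Ω), IsProbabilityMeasure P →
  ∀ L : List (ℝ × (Ω → ℝ)), L.length ≤ N → (∀ a ∈ L, |a.1| ≤ Λ ∧ Measurable a.2 ∧
    ∫ ω, a.2 ω ∂P = 0 ∧ ∀ t : ℝ, Integrable (fun ω => Real.exp (t * a.2 ω)) P ∧
      ∫ ω, Real.exp (t * a.2 ω) ∂P ≤ b t) →
  Integrable (fun ω => Real.exp ((L.map fun a => a.1 * a.2 ω).sum)) P ∧
  Integrable (fun ω => ((L.map fun a => a.1 * a.2 ω).sum) ^ 2) P ∧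
  |Real.log (∫ ω, Real.exp ((L.map fun a => a.1 * a.2 ω).sum) ∂P) -
      (∫ ω, ((L.map fun a => a.1 * a.2 ω).sum) ^ 2 ∂P) / 2| ≤
    C * (L.map fun a => (∫ ω, |a.2 ω| ^ (3 + ε) ∂P) ^ (3 / (3 + ε))).sum

/-- `min (log (1 / r)) t`, with `log (1 / 0) = ∞` -/
def ell (r t : ℝ) : ℝ := if r = 0 then t else min (Real.log (1 / r)) t

/-- The assumptions of the problem for fields on the metric space `T` with the base point `o`, which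
are continuous for all `ω`. -/
structure Hyp {Ω T : Type} [MeasurableSpace Ω] [MetricSpace T] (P : Measure Ω)
    (X : ℕ → T → Ω → ℝ) (o : T) (δ ε C₀ : ℝ) : Prop extends Base P X where
  centred : ∀ j x, ∫ ω, X j x ω ∂P = 0
  expm : ∀ t : ℝ, ∃ C : ℝ, ∀ j x, Integrable (fun ω => Real.exp (t * X j x ω)) P ∧
    ∫ ω, Real.exp (t * X j x ω) ∂P ≤ C
  div : Tendsto (fun n => K P X 0 n o o) atTop atTop
  cov : ∀ n x y, dist x y ≤ δ → |K P X 0 n x y - ell (dist x y) (K P X 0 n o o)| ≤ C₀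
  mom : ∀ x n, ∑ j ∈ Finset.range n, (∫ ω, |X j x ω| ^ (3 + ε) ∂P) ^ (3 / (3 + ε)) ≤ C₀
  δpos : 0 < δ
  εpos : 0 < ε

/-- B2a: covariances of blocks at points which are far on the scale `m` or close on the scale `n`,
and the properties of the variances. -/
def S_B2a : Prop := ∀ (Ω T : Type) (_ : MeasurableSpace Ω) (_ : MetricSpace T) (P : Measure Ω)
  (X : ℕ → T → Ω → ℝ) (o : T) (δ ε C₀ : ℝ), Hyp P X o δ ε C₀ →
  Monotone (fun n => K P X 0 n o o) ∧ K P X 0 0 o o = 0 ∧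
  (∃ D : ℝ, ∀ k, K P X 0 (k + 1) o o ≤ K P X 0 k o o + D) ∧
  (∀ c : ℝ, 0 < c → ∃ C : ℝ, ∀ (m n : ℕ) (x y : T), m ≤ n → dist x y ≤ δ →
    c * Real.exp (-(K P X 0 m o o)) ≤ dist x y → |K P X m n x y| ≤ C) ∧
  (∀ R : ℝ, ∃ C : ℝ, ∀ (m n : ℕ) (x y : T), m ≤ n → dist x y ≤ δ →
    dist x y ≤ R * Real.exp (-(K P X 0 n o o)) →
    |K P X m n x y - (K P X 0 n o o - K P X 0 m o o)| ≤ C)

/-- B2b: the exponential moments at several points. -/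
def S_B2b : Prop := ∀ (Ω T : Type) (_ : MeasurableSpace Ω) (_ : MetricSpace T) (P : Measure Ω)
  (X : ℕ → T → Ω → ℝ) (o : T) (δ ε C₀ : ℝ), Hyp P X o δ ε C₀ →
  ∀ (N : ℕ) (Λ : ℝ), ∃ C : ℝ, ∀ (L : List (ℝ × T)) (m n : ℕ), Adm univ N Λ L → m ≤ n →
    ex (QQ P X L m n / 2 - C) ≤ Ph P X L m n ∧ Ph P X L m n ≤ ex (QQ P X L m n / 2 + C)

/-- B2: the assumptions of the problem imply `Chaos` on small sets. -/
def S_B2 : Prop := ∀ (Ω T : Type) (_ : MeasurableSpace Ω) (_ : MetricSpace T) (P : Measure Ω)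
  (X : ℕ → T → Ω → ℝ) (o : T) (δ ε C₀ : ℝ), Hyp P X o δ ε C₀ → ∀ Q : Set T,
  (∀ x ∈ Q, ∀ y ∈ Q, dist x y ≤ δ) → Chaos P X Q (fun n => K P X 0 n o o)

/-- B3: modification on a null set. -/
def S_B3 : Prop := ∀ (Ω T : Type) (_ : MeasurableSpace Ω) (_ : MetricSpace T) (P : Measure Ω),
  IsProbabilityMeasure P → ∀ (X : ℕ → T → Ω → ℝ), (∀ j x, Measurable (X j x)) →
  (∀ j, ∀ᵐ ω ∂P, Continuous fun x => X j x ω) →
  iIndepFun (fun (j : ℕ) (ω : Ω) (x : T) => X j x ω) P →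
  ∃ X' : ℕ → T → Ω → ℝ, Base P X' ∧ ∀ᵐ ω ∂P, ∀ j x, X' j x ω = X j x ω

/-! ### H. The cube -/

/-- The cube `[0, 1]^d`. -/
abbrev Cube (d : ℕ) : Type := {x : EuclideanSpace ℝ (Fin d) // ∀ i, x i ∈ Set.Icc (0 : ℝ) 1}

/-- Lebesgue measure on the cube. -/
def cubeVol (d : ℕ) : Measure (Cube d) :=
  Measure.comap Subtype.val (volume : Measure (EuclideanSpace ℝ (Fin d)))

/-- H1: upper regularity. -/
def S_H1 : Prop := ∀ d : ℕ, 1 ≤ d → Reg (cubeVol d) d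

/-- H2: the annuli around the points near the centre. -/
def S_H2 : Prop := ∀ d : ℕ, 1 ≤ d → ∃ C₀ : ℝ, ∀ (x : Cube d) (t : ℝ),
  (∀ i, x.1 i ∈ Set.Icc (1 / 4 : ℝ) (3 / 4)) → Real.exp t ≤ 1 / 4 →
  ex (-C₀ + d * t) ≤ cubeVol d {y : Cube d | dist x y ≤ Real.exp t ∧ Real.exp t / 2 ≤ dist x y}

/-- H3: the cube is a finite union of small sets, its volume is finite, and the points near the
centre have positive volume. -/
def S_H3 : Prop := ∀ (d : ℕ) (δ : ℝ), 1 ≤ d → 0 < δ →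
  IsFiniteMeasure (cubeVol d) ∧
  (∃ (N : ℕ) (Q : ℕ → Set (Cube d)), (∀ i, MeasurableSet (Q i)) ∧
    (∀ i, ∀ x ∈ Q i, ∀ y ∈ Q i, dist x y ≤ δ) ∧ (⋃ i ∈ Finset.range N, Q i) = univ) ∧
  ∃ (z : Cube d) (η : ℝ), 0 < η ∧ η ≤ δ / 4 ∧
    0 < cubeVol d (Metric.closedBall z η) ∧
    ∀ x ∈ Metric.closedBall z η, ∀ i, x.1 i ∈ Set.Icc (1 / 4 : ℝ) (3 / 4)

end

end Pool.Agent.H629.GC
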