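import Pool.Agent.H629.GC.Stm

set_option autoImplicit false

open MeasureTheory ProbabilityTheory Set Filter
open scoped ENNReal Topology

/-!
# Moments of non-Gaussian multiplicative chaos (MP_b1920d_pr): statements for the tails
-/

namespace Pool.Agent.H629.GC

noncomputable section

/-- T1: with `v = d - β² / 2` and `q = 2 d / β² - 1`, the mass is at least `exp ((v - e) s k - 1)`
with probability at least `exp (- (v + e) q s k - C)` under the tilted measures. -/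
def S_T1 : Prop := Ass fun _Ω T _ _ _ P X Q s vol β d =>
  0 < β → β ^ 2 / 2 < d → ∀ (A : Set T), MeasurableSet A → A ⊆ Q → ∀ (c C₀ e : ℝ), 0 < c → 0 < e →
    ∃ C σ : ℝ, ∀ (k n : ℕ) (B : Set T) (x : T), k ≤ n → σ ≤ s k → x ∈ Q → MeasurableSet B →
      B ⊆ A → B ⊆ Metric.closedBall x (Real.exp (-(s k))) →
      (∀ y ∈ B, c * Real.exp (-(s k)) ≤ dist x y) → ex (-C₀ - d * s k) ≤ vol B →
      ex (-C - (d - β ^ 2 / 2 + e) * (2 * d / β ^ 2 - 1) * s k) ≤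
        ∫⁻ ω in {ω | ex ((d - β ^ 2 / 2 - e) * s k - 1) ≤ Z P X β vol 0 n A ω},
          gh P X β 0 n x ω ∂P

/-- T2: logarithmic asymptotics of the tail from moments and lower bounds. -/
def S_T2 : Prop := ∀ (Ω : Type) (_ : MeasurableSpace Ω) (P : Measure Ω), IsProbabilityMeasure P →
  ∀ (M : Ω → ℝ) (pc : ℝ), 0 < pc → (∀ᵐ ω ∂P, 0 ≤ M ω) → AEMeasurable M P →
  (∀ p : ℝ, 0 < p → p < pc → ∫⁻ ω, ENNReal.ofReal (M ω ^ p) ∂P < ∞) →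
  (∀ e : ℝ, 0 < e → ∀ᶠ t : ℝ in atTop, ENNReal.ofReal (t ^ (-(pc + e))) ≤ P {ω | t < M ω}) →
  Tendsto (fun t : ℝ => Real.log (P.real {ω | t < M ω}) / Real.log t) atTop (𝓝 (-pc))

/-- T3: from lower bounds for the truncated first moments to lower bounds for the tails. -/
def S_T3 : Prop := ∀ (Ω : Type) (_ : MeasurableSpace Ω) (P : Measure Ω), IsProbabilityMeasure P →
  ∀ (M : ℕ → Ω → ℝ≥0∞) (M' : Ω → ℝ≥0∞), (∀ n, Measurable (M n)) →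
  (∀ᵐ ω ∂P, Tendsto (fun n => M n ω) atTop (𝓝 (M' ω))) →
  ∀ (s : ℕ → ℝ) (D q v : ℝ), (∀ k, s (k + 1) ≤ s k + D) → Tendsto s atTop atTop → 0 < q → 0 < v →
  (∀ r : ℝ, 1 < r → r < 1 + q → ∃ C : ℝ≥0∞, C ≠ ∞ ∧ ∀ n, ∫⁻ ω, M n ω ^ r ∂P ≤ C) →
  (∀ e : ℝ, 0 < e → ∃ C σ : ℝ, ∀ k n, k ≤ n → σ ≤ s k →
    ex (-C - (v + e) * q * s k) ≤ ∫⁻ ω in {ω | ex ((v - e) * s k - 1) ≤ M n ω}, M n ω ∂P) →
  ∀ e : ℝ, 0 < e → ∀ᶠ t : ℝ in atTop,
    ENNReal.ofReal (t ^ (-(1 + q + e))) ≤ P {ω | ENNReal.ofReal t < M' ω}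

end

end Pool.Agent.H629.GC
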